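import Pool.Agent.H61.AR.Targets

/-!
# The defect vanishes in the case of equality (EQL)
-/

set_option autoImplicit false

open Set Function MeasureTheory Filter Topology
open scoped Manifold ContDiff Matrix
open Pool.Agent.H61.AR Pool.Agent.H60.CM

namespace Pool.Agent.H13.ARQ

theorem pf_EQL (h1 : T_IEP) (h2 : T_DSM) (h3 : T_NRM) (h4 : T_BLM) : T_EQL := by
  intro D γ s hγ hs hle c hc
  have hid := h1 D γ s hγ hs c
  obtain ⟨hnr, hnz, -, -⟩ := h3 D γ hγ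
  have hB : Tendsto (fun ε : ℝ => ∫ θ in (0 : ℝ)..(2 * Real.pi), bt D γ c ε θ) (𝓝[>] 0)
      (𝓝 ((∫ θ in (0 : ℝ)..(2 * Real.pi), nz D γ θ) / 2)) :=
    h4 D.r c (nr D γ) (nz D γ) D.cmc.r_pos hc hnr hnz
  have hR : Tendsto (fun ε : ℝ => D.H ^ 2 / 2 * ar D +
      s * ∫ θ in (0 : ℝ)..(2 * Real.pi), bt D γ c ε θ) (𝓝[>] 0)
      (𝓝 (D.H ^ 2 / 2 * ar D + s * ((∫ θ in (0 : ℝ)..(2 * Real.pi), nz D γ θ) / 2))) :=
    tendsto_const_nhds.add (hB.const_mul s)
  rw [Metric.tendsto_nhds]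
  intro η hη
  have hη4 : 0 < η / 4 := by linarith
  have hlim : D.H ^ 2 / 2 * ar D + s * ((∫ θ in (0 : ℝ)..(2 * Real.pi), nz D γ θ) / 2) <
      Real.pi + η / 4 := by nlinarith
  have e1 := hR.eventually_lt_const hlim
  have e2 := (h2 D c ∅ (η / 4) hη4 (fun p hp => absurd hp (Finset.notMem_empty p))
    (fun p hp => absurd hp (Finset.notMem_empty p))).2 hc
  filter_upwards [e1, e2, self_mem_nhdsWithin] with ε g1 g2 g3
  have g4 := hid ε g3
  rw [Finset.card_empty, Nat.cast_zero, mul_zero, zero_add] at g2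
  have g5 : 0 ≤ ∫ p in D.int, fe D c ε p ^ 2 ∂D.μ :=
    integral_nonneg fun p => sq_nonneg _
  rw [Real.dist_eq, sub_zero, abs_of_nonneg g5]
  linarith

end Pool.Agent.H13.ARQ
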